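import Pool.Agent.K1H49.PL.Stm

/-!
Task PL-CPT: compactness for SOP1 trees.
-/

set_option autoImplicit false

namespace Pool.Agent.K1H29.PL

open Pool.Agent.K1H49.PL

universe u

variable {M : Type u}

theorem D_list (Y : Sys M) {κ ι : Type} (l : List ι) (P : ι → Set (κ → M))
    (h : ∀ i ∈ l, Y.D (P i)) : Y.D {v : κ → M | ∀ i ∈ l, v ∈ P i} := by
  induction l with
  | nil =>
    have : {v : κ → M | ∀ i ∈ ([] : List ι), v ∈ P i} = Set.univ := by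
      ext v
      simp
    rw [this]
    exact Y.univ
  | cons a l ih =>
    have : {v : κ → M | ∀ i ∈ a :: l, v ∈ P i} = P a ∩ {v : κ → M | ∀ i ∈ l, v ∈ P i} := by
      ext v
      simp
    rw [this]
    exact Y.inter (h a (by simp)) (ih (fun i hi => h i (by simp [hi])))

/-- finitely many conditions indexed by prefixes -/
theorem D_pre (Y : Sys M) {κ : Type} (σ : Nd) (c : Nd → Prop) (P : Nd → Set (κ → M))
    (hc : ∀ μ, c μ → μ <+: σ) (h : ∀ μ, c μ → Y.D (P μ)) :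
    Y.D {v : κ → M | ∀ μ, c μ → v ∈ P μ} := by
  classical
  have h1 := D_list Y σ.inits (fun μ => if c μ then P μ else Set.univ) (by
    intro μ _
    split_ifs with hμ
    · exact h μ hμ
    · exact Y.univ)
  have h2 : {v : κ → M | ∀ μ, c μ → v ∈ P μ} =
      {v : κ → M | ∀ i ∈ σ.inits, v ∈ (fun μ => if c μ then P μ else Set.univ) i} := by
    ext v
    constructor
    · intro hv μ _
      show v ∈ (if c μ then P μ else Set.univ)
      split_ifs with hcμ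
      · exact hv μ hcμ
      · trivial
    · intro hv μ hcμ
      have := hv μ (List.mem_inits μ σ |>.2 (hc μ hcμ))
      have h3 : v ∈ (if c μ then P μ else Set.univ) := this
      rw [if_pos hcμ] at h3
      exact h3
  rw [h2]
  exact h1

section
variable {X V Z : Type} (β : (X → M) → (V → M) → Prop) (α : (Z → M) → (V → M) → Prop)
  (γ : (X → M) → (Z → M) → Prop)

/-- first kind of conditions -/
def SA (μ η : Nd) : Set ((Nd × V) ⊕ (Nd × Z) → M) :=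
  {v | α (fun i => v (Sum.inr (η, i))) (fun i => v (Sum.inl (μ, i)))}

/-- second kind of conditions -/
def SB (σ : Nd) : Set ((Nd × V) ⊕ (Nd × Z) → M) :=
  {v | ∃ x : X → M, (∀ μ : Nd, (μ ++ [true]) <+: σ → β x (fun i => v (Sum.inl (μ, i)))) ∧
    ∀ η : Nd, η <+: σ → γ x (fun i => v (Sum.inr (η, i)))}

/-- the conditions of height at most `n` -/
def GG (n : ℕ) : Set (Set ((Nd × V) ⊕ (Nd × Z) → M)) :=
  {S | (∃ μ η : Nd, η.length ≤ n ∧ (μ ++ [false]) <+: η ∧ S = SA α μ η) ∨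
    ∃ σ : Nd, σ.length ≤ n ∧ S = SB β γ σ}

variable {β α γ}

theorem D_SA (Y : Sys M) (hα : Y.D2 α) (μ η : Nd) : Y.D (SA α μ η) := by
  have h := Y.pull (Sum.elim (fun i : Z => (Sum.inr (η, i) : (Nd × V) ⊕ (Nd × Z)))
    (fun i : V => Sum.inl (μ, i))) hα
  exact h

theorem D_SB (Y : Sys M) [Finite X] (hβ : Y.D2 β) (hγ : Y.D2 γ) (σ : Nd) :
    Y.D (SB β γ σ) := by
  have h1 : Y.D {u : ((Nd × V) ⊕ (Nd × Z)) ⊕ X → M | ∀ μ : Nd, (μ ++ [true]) <+: σ →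
      u ∈ {u : ((Nd × V) ⊕ (Nd × Z)) ⊕ X → M |
        β (fun i => u (Sum.inr i)) (fun i => u (Sum.inl (Sum.inl (μ, i))))}} := by
    apply D_pre Y σ
    · intro μ hμ
      exact (List.prefix_append μ [true]).trans hμ
    · intro μ _
      exact Y.pull (Sum.elim (fun i : X => (Sum.inr i : ((Nd × V) ⊕ (Nd × Z)) ⊕ X))
        (fun i : V => Sum.inl (Sum.inl (μ, i)))) hβ
  have h2 : Y.D {u : ((Nd × V) ⊕ (Nd × Z)) ⊕ X → M | ∀ η : Nd, η <+: σ →
      u ∈ {u : ((Nd × V) ⊕ (Nd × Z)) ⊕ X → M |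
        γ (fun i => u (Sum.inr i)) (fun i => u (Sum.inl (Sum.inr (η, i))))}} := by
    apply D_pre Y σ
    · intro μ hμ
      exact hμ
    · intro η _
      exact Y.pull (Sum.elim (fun i : X => (Sum.inr i : ((Nd × V) ⊕ (Nd × Z)) ⊕ X))
        (fun i : Z => Sum.inl (Sum.inr (η, i)))) hγ
  exact Y.proj (Y.inter h1 h2)

theorem GG_mono {m n : ℕ} (h : m ≤ n) : GG β α γ m ⊆ GG β α γ n := by
  rintro S (⟨μ, η, h1, h2, h3⟩ | ⟨σ, h1, h2⟩)
  · exact Or.inl ⟨μ, η, h1.trans h, h2, h3⟩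
  · exact Or.inr ⟨σ, h1.trans h, h2⟩

end

theorem t_CPT : S_CPT.{u} := by
  classical
  intro M Y X V Z _ _ _ β α γ hβ hα hγ hfin
  have hΓD : ∀ S ∈ ⋃ n, GG β α γ n, Y.D S := by
    intro S hS
    rw [Set.mem_iUnion] at hS
    obtain ⟨n, hn⟩ := hS
    rcases hn with ⟨μ, η, _, _, rfl⟩ | ⟨σ, _, rfl⟩
    · exact D_SA Y hα μ η
    · exact D_SB Y hβ hγ σ
  have hsat : ∀ Δ : Finset (Set ((Nd × V) ⊕ (Nd × Z) → M)),
      (∀ S ∈ Δ, S ∈ ⋃ n, GG β α γ n) → ∃ v, ∀ S ∈ Δ, v ∈ S := by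
    intro Δ hΔ
    have hex : ∀ S : Set ((Nd × V) ⊕ (Nd × Z) → M), ∃ n : ℕ, S ∈ Δ → S ∈ GG β α γ n := by
      intro S
      by_cases hS : S ∈ Δ
      · obtain ⟨n, hn⟩ := Set.mem_iUnion.1 (hΔ S hS)
        exact ⟨n, fun _ => hn⟩
      · exact ⟨0, fun h => absurd h hS⟩
    choose N hN using hex
    obtain ⟨y, z, h1, h2⟩ := hfin (Δ.sup N)
    refine ⟨Sum.elim (fun p => y p.1 p.2) (fun p => z p.1 p.2), fun S hS => ?_⟩
    have h3 : S ∈ GG β α γ (Δ.sup N) := GG_mono (Finset.le_sup hS) (hN S hS)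
    rcases h3 with ⟨μ, η, hl, hp, rfl⟩ | ⟨σ, hl, rfl⟩
    · exact h1 μ η hl hp
    · exact h2 σ hl
  obtain ⟨v, hv⟩ := Y.sat (⋃ n, GG β α γ n) hΓD hsat
  refine ⟨fun μ i => v (Sum.inl (μ, i)), fun η i => v (Sum.inr (η, i)), ?_, ?_⟩
  · intro μ η hp
    exact hv (SA α μ η) (Set.mem_iUnion.2 ⟨η.length, Or.inl ⟨μ, η, le_rfl, hp, rfl⟩⟩)
  · intro σ
    exact hv (SB β γ σ) (Set.mem_iUnion.2 ⟨σ.length, Or.inr ⟨σ, le_rfl, rfl⟩⟩)

end Pool.Agent.K1H29.PL
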